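import Pool.Agent.H81.NCH.Stmts
import Pool.Agent.H81.NCH.Base

/-!
# NCH, row LIN: change of the level within a cell
-/

set_option autoImplicit false

namespace Pool.Agent.H25.NCH

open Pool.Agent.H81.NCH

namespace LIN

theorem upd_same (r : ℕ → ℕ → ℕ) (u x ρ : ℕ) : upd r u x ρ u x = ρ := by
  simp [upd]

theorem upd_ne (r : ℕ → ℕ → ℕ) (u x ρ e i : ℕ) (h : ¬ (e = u ∧ i = x)) :
    upd r u x ρ e i = r e i := by
  simp only [upd]
  rw [if_neg h]

theorem sgn_cases (e i : ℕ) : sgn e i = 1 ∨ sgn e i = -1 := by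
  unfold sgn
  split_ifs
  · exact neg_one_pow_eq_or ℤ (e + 1)
  · exact neg_one_pow_eq_or ℤ e

open Classical in
/-- Linear approximation of `kap` within a cell. -/
theorem kap_lin (hA : KPAStmt) (hB : KPBStmt) (h m e i : ℕ) (he : e ≤ h) (hi : i < 2 ^ e)
    (r r' s s' : ℕ) (hr : r ≤ m) (hr' : r' ≤ m) (P : Prop) (hP : P ↔ NN h * r ≤ s)
    (hP' : P ↔ NN h * r' ≤ s') :
    |(NN h : ℤ) * ((kap h m e i r' s' : ℤ) - kap h m e i r s) -
      ((NN h : ℤ) - 2 ^ e - i - (if P then 0 else 2 ^ (h + 1))) * ((s' : ℤ) - s) +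
      (NN h : ℤ) * 2 ^ (h + 1) * (if P then 1 else 0) * ((r' : ℤ) - r)| ≤ 4 * (NN h : ℤ) ^ 2 := by
  by_cases hp : P
  · have h1 := hP.1 hp
    have h2 := hP'.1 hp
    have h3 := (hA h m e i he hi).2.2 r s h1 hr
    have h4 := (hA h m e i he hi).2.2 r' s' h2 hr'
    have h5 := (hB h m e i he hi).2 s
    have h6 := (hB h m e i he hi).2 s'
    have h3' : (kap h m e i r s : ℤ) + 2 ^ (h + 1) * r = kap h m e i 0 s := by
      exact_mod_cast h3
    have h4' : (kap h m e i r' s' : ℤ) + 2 ^ (h + 1) * r' = kap h m e i 0 s' := by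
      exact_mod_cast h4
    rw [if_pos hp, if_pos hp]
    rw [← h3'] at h5
    rw [← h4'] at h6
    rw [abs_le] at h5 h6 ⊢
    constructor
    · linarith [h5.2, h6.1]
    · linarith [h5.1, h6.2]
  · have h1 : s ≤ NN h * r := by
      by_contra h7
      exact hp (hP.2 (by omega))
    have h2 : s' ≤ NN h * r' := by
      by_contra h7
      exact hp (hP'.2 (by omega))
    have h5 := (hB h m e i he hi).1 r s h1 hr
    have h6 := (hB h m e i he hi).1 r' s' h2 hr'
    have h7 : (0 : ℤ) ≤ (NN h : ℤ) ^ 2 := sq_nonneg _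
    rw [if_neg hp, if_neg hp]
    rw [abs_le] at h5 h6 ⊢
    constructor
    · linarith [h5.2, h6.1]
    · linarith [h5.1, h6.2]

/-- The base level does not change. -/
theorem bas_eq (h m : ℕ) (r : ℕ → ℕ → ℕ) (u x ρ ρ' e i : ℕ)
    (hne : ∀ D, D < e → ¬ (D = u ∧ i / 2 ^ (e - D) = x)) :
    bas h m (upd r u x ρ') e i = bas h m (upd r u x ρ) e i := by
  unfold bas
  refine Finset.sum_congr rfl fun D hD => ?_
  have h1 := hne D (Finset.mem_Ico.1 hD).2
  rw [upd_ne _ _ _ _ _ _ h1, upd_ne _ _ _ _ _ _ h1]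

/-- The base level if the number of an ancestor changes. -/
theorem bas_anc (hA : KPAStmt) (h m : ℕ) (r : ℕ → ℕ → ℕ) (u x ρ ρ' e i : ℕ) (hm : 1 ≤ m)
    (hu1 : 1 ≤ u) (hue : u < e) (hu : u ≤ h) (hx : x < 2 ^ u) (hxi : i / 2 ^ (e - u) = x)
    (hρ : ρ ≤ m) (hρ' : ρ' ≤ m) (hw : NN h * m ≤ Wd h m (h - u)) :
    bas h m (upd r u x ρ') e i - bas h m (upd r u x ρ) e i =
      -(sgn u x * 2 ^ (h + 1) * ((ρ' : ℤ) - ρ)) := by
  unfold bas
  rw [← Finset.sum_sub_distrib, Finset.sum_eq_single u]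
  · rw [hxi, upd_same, upd_same]
    have h3 := (hA h m u x hu hx).2.2 ρ (Wd h m (h - u))
      (le_trans (Nat.mul_le_mul_left _ hρ) hw) hρ
    have h4 := (hA h m u x hu hx).2.2 ρ' (Wd h m (h - u))
      (le_trans (Nat.mul_le_mul_left _ hρ') hw) hρ'
    have h3' : (kap h m u x ρ (Wd h m (h - u)) : ℤ) + 2 ^ (h + 1) * ρ =
        kap h m u x 0 (Wd h m (h - u)) := by
      exact_mod_cast h3
    have h4' : (kap h m u x ρ' (Wd h m (h - u)) : ℤ) + 2 ^ (h + 1) * ρ' =
        kap h m u x 0 (Wd h m (h - u)) := by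
      exact_mod_cast h4
    linear_combination (sgn u x) * (h4' - h3')
  · intro D _ hDu
    have h1 : ¬ (D = u ∧ i / 2 ^ (e - D) = x) := fun h2 => hDu h2.1
    rw [upd_ne _ _ _ _ _ _ h1, upd_ne _ _ _ _ _ _ h1, sub_self]
  · intro h1
    exact absurd (Finset.mem_Ico.2 ⟨hu1, hue⟩) h1

theorem wd_ge (h m u : ℕ) : NN h * m ≤ Wd h m (h - u) := by
  unfold Wd HH
  have h1 : m ≤ 4 ^ (h - u) * (4 * m) := by
    have : 1 ≤ 4 ^ (h - u) := Nat.one_le_pow _ _ (by norm_num)
    nlinarith
  have h2 := Nat.mul_le_mul_left (NN h) h1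
  omega

end LIN

open LIN in
open Classical in
theorem LIN_thm (hA : KPAStmt) (hB : KPBStmt) (hL : LVFStmt) : LINStmt := by
  intro h m r u x ρ ρ' e i side t t' hm hR hR' he1 he hi hu1 hu hx ht ht' hPost
  have hρ : 1 ≤ ρ ∧ ρ ≤ m := by
    have := hR u x
    rwa [upd_same] at this
  have hρ' : 1 ≤ ρ' ∧ ρ' ≤ m := by
    have := hR' u x
    rwa [upd_same] at this
  have hφ := hL h m (upd r u x ρ) e i t he1 he hi ⟨side, ht⟩
  have hφ' := hL h m (upd r u x ρ') e i t' he1 he hi ⟨side, ht'⟩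
  -- the closed interval
  have hint : st h m e i ≤ t ∧ t ≤ en h m e i := by
    have h1 := st_le_cs (h := h) (m := m) e i
    have h2 := ce_le_en (h := h) (m := m) e i
    have h3 := cs_le_ce (h := h) (m := m) e i
    cases side <;> simp only [InWall] at ht <;> simp at ht <;> constructor <;> omega
  have hint' : st h m e i ≤ t' ∧ t' ≤ en h m e i := by
    have h1 := st_le_cs (h := h) (m := m) e i
    have h2 := ce_le_en (h := h) (m := m) e i
    have h3 := cs_le_ce (h := h) (m := m) e i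
    cases side <;> simp only [InWall] at ht' <;> simp at ht' <;> constructor <;> omega
  -- the index
  have hidx : (if side then (1 : ℤ) else -1) * ((t' : ℤ) - t) =
      (idx h m e i t' : ℤ) - idx h m e i t := by
    cases side
    · simp [InWall] at ht ht'
      rw [idx_right he1 ht.1, idx_right he1 ht'.1]
      simp
      push_cast [Nat.cast_sub hint.2, Nat.cast_sub hint'.2]
      ring
    · simp [InWall] at ht ht'
      rw [idx_left he1 ht.2, idx_left he1 ht'.2]
      simp
      push_cast [Nat.cast_sub hint.1, Nat.cast_sub hint'.1]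
      ring
  obtain ⟨P, hPdef⟩ : ∃ P : Prop, P = Post h m (upd r u x ρ) e i t := ⟨_, rfl⟩
  rw [← hPdef] at hPost ⊢
  have hP1 : P ↔ NN h * upd r u x ρ e i ≤ idx h m e i t := by
    rw [hPdef]
    rfl
  have hP2 : P ↔ NN h * upd r u x ρ' e i ≤ idx h m e i t' := hPost
  have hkap := kap_lin hA hB h m e i he hi (upd r u x ρ e i) (upd r u x ρ' e i)
    (idx h m e i t) (idx h m e i t') (hR e i).2 (hR' e i).2 P hP1 hP2
  rw [← hidx] at hkap
  -- reduction to one identity
  have key : ∀ B : ℤ, (∃ X : ℤ, X = (if P then 1 else 0) * ((upd r u x ρ' e i : ℤ) -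
      upd r u x ρ e i) ∧ bas h m (upd r u x ρ') e i - bas h m (upd r u x ρ) e i =
        -(sgn u x * 2 ^ (h + 1) * B) + sgn e i * 2 ^ (h + 1) * X) →
      |(NN h : ℤ) * (phi h m (upd r u x ρ') t' - phi h m (upd r u x ρ) t) -
      slp h side e i P * ((t' : ℤ) - t) + sgn u x * 2 ^ (h + 1) * (NN h : ℤ) * B| ≤
      4 * (NN h : ℤ) ^ 2 := by
    rintro B ⟨X, hX, hb⟩
    have e1 : (NN h : ℤ) * (phi h m (upd r u x ρ') t' - phi h m (upd r u x ρ) t) -
        slp h side e i P * ((t' : ℤ) - t) + sgn u x * 2 ^ (h + 1) * (NN h : ℤ) * B =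
        sgn e i * ((NN h : ℤ) * ((kap h m e i (upd r u x ρ' e i) (idx h m e i t') : ℤ) -
          kap h m e i (upd r u x ρ e i) (idx h m e i t)) -
      ((NN h : ℤ) - 2 ^ e - i - (if P then 0 else 2 ^ (h + 1))) *
        ((if side then (1 : ℤ) else -1) * ((t' : ℤ) - t)) +
      (NN h : ℤ) * 2 ^ (h + 1) * (if P then 1 else 0) *
        ((upd r u x ρ' e i : ℤ) - upd r u x ρ e i)) := by
      rw [hφ, hφ']
      unfold slp
      linear_combination (NN h : ℤ) * hb + sgn e i * (NN h : ℤ) * 2 ^ (h + 1) * hX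
    rw [e1]
    rcases sgn_cases e i with h1 | h1 <;> rw [h1]
    · rw [one_mul]
      exact hkap
    · rw [neg_one_mul, abs_neg]
      exact hkap
  by_cases hAe : e = u ∧ i = x
  · obtain ⟨rfl, rfl⟩ := hAe
    refine ⟨by rw [← hPdef]; exact hPost, ?_⟩
    rw [← hPdef]
    have h1 := key ((if P then 1 else 0) * ((ρ' : ℤ) - ρ)) ⟨_, rfl, ?_⟩
    · have e2 : sgn e i * 2 ^ (h + 1) * (NN h : ℤ) * ((if P then 1 else 0) * ((ρ' : ℤ) - ρ)) =
          sgn e i * 2 ^ (h + 1) * (NN h : ℤ) * (if P then 1 else 0) * ((ρ' : ℤ) - ρ) := by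
        ring
      rw [e2] at h1
      exact h1
    · rw [upd_same, upd_same, bas_eq]
      · ring
      · rintro D hD ⟨h2, -⟩
        omega
  · have hr0 := upd_ne r u x ρ e i hAe
    have hr0' := upd_ne r u x ρ' e i hAe
    by_cases hB1 : u < e ∧ i / 2 ^ (e - u) = x
    · obtain ⟨hue, hxi⟩ := hB1
      have hIn : Inside u x e i := ⟨hue.le, hxi⟩
      have hp : Post h m (upd r u x ρ) u x t := by
        unfold Post
        rw [upd_same, idx_anc hu1 hIn hue he hint.1 hint.2]
        exact le_trans (Nat.mul_le_mul_left _ hρ.2) (wd_ge h m u)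
      have hp' : Post h m (upd r u x ρ') u x t' := by
        unfold Post
        rw [upd_same, idx_anc hu1 hIn hue he hint'.1 hint'.2]
        exact le_trans (Nat.mul_le_mul_left _ hρ'.2) (wd_ge h m u)
      refine ⟨⟨fun _ => hp', fun _ => hp⟩, ?_⟩
      rw [if_pos hp, mul_one]
      apply key
      refine ⟨_, rfl, ?_⟩
      rw [bas_anc hA h m r u x ρ ρ' e i hm hu1 hue hu hx hxi hρ.2 hρ'.2 (wd_ge h m u), hr0, hr0']
      ring
    · have hz : idx h m u x t = 0 ∧ idx h m u x t' = 0 := by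
        by_cases hC : Inside e i u x
        · have hlt : e < u := by
            rcases Nat.lt_or_ge e u with h1 | h1
            · exact h1
            · exfalso
              obtain ⟨h2, h3⟩ := hC
              have h4 : e = u := by omega
              subst h4
              simp at h3
              exact hAe ⟨rfl, h3.symm⟩
          have hn := nested (m := m) hC hlt hu
          cases side
          · simp [InWall] at ht ht'
            exact ⟨idx_outside (Or.inr (by omega)), idx_outside (Or.inr (by omega))⟩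
          · simp [InWall] at ht ht'
            exact ⟨idx_outside (Or.inl (by omega)), idx_outside (Or.inl (by omega))⟩
        · have hC' : ¬ Inside u x e i := by
            rintro ⟨h1, h2⟩
            rcases Nat.lt_or_ge u e with h3 | h3
            · exact hB1 ⟨h3, h2⟩
            · have h4 : e = u := by omega
              subst h4
              simp at h2
              exact hAe ⟨rfl, h2⟩
          exact ⟨idx_other hu1 hu hx he1 he hi hC' hC hint.1 hint.2,
            idx_other hu1 hu hx he1 he hi hC' hC hint'.1 hint'.2⟩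
      have hNN := NN_pos h
      have hp : ¬ Post h m (upd r u x ρ) u x t := by
        unfold Post
        rw [upd_same, hz.1]
        have := Nat.mul_pos hNN (by omega : 0 < ρ)
        omega
      have hp' : ¬ Post h m (upd r u x ρ') u x t' := by
        unfold Post
        rw [upd_same, hz.2]
        have := Nat.mul_pos hNN (by omega : 0 < ρ')
        omega
      refine ⟨⟨fun h1 => absurd h1 hp, fun h1 => absurd h1 hp'⟩, ?_⟩
      rw [if_neg hp, mul_zero, zero_mul]
      have h1 := key 0 ⟨_, rfl, ?_⟩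
      · rw [mul_zero] at h1
        exact h1
      · rw [hr0, hr0', bas_eq]
        · ring
        · rintro D hD ⟨h2, h3⟩
          subst h2
          exact hB1 ⟨hD, h3⟩

end Pool.Agent.H25.NCH
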